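import Pool.Agent.P8H30.SW.Stm

/-!
# Project SW, package C1: an irreducible Lie algebra of skew operators containing a triple of rank one
-/

set_option autoImplicit false
set_option linter.unusedSimpArgs false

open Module

namespace Pool.Agent.P8H76.SW

open Pool.Agent.P8H30.SW

section

variable {W : Type} [AddCommGroup W] [Module ℂ W]

/-- operators with given values on a basis -/
noncomputable def op (b : Basis (Fin 4) ℂ W) (v : Fin 4 → W) : Module.End ℂ W := b.constr ℂ v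

lemma op_apply (b : Basis (Fin 4) ℂ W) (v : Fin 4 → W) (i : Fin 4) : op b v (b i) = v i :=
  b.constr_basis ℂ v i

lemma ext4 (b : Basis (Fin 4) ℂ W) {x y : Module.End ℂ W} (h0 : x (b 0) = y (b 0))
    (h1 : x (b 1) = y (b 1)) (h2 : x (b 2) = y (b 2)) (h3 : x (b 3) = y (b 3)) : x = y := by
  refine b.ext fun i => ?_
  fin_cases i
  · exact h0
  · exact h1
  · exact h2
  · exact h3

/-- `S(b 0, b 2)` -/
noncomputable def P2 (b : Basis (Fin 4) ℂ W) : Module.End ℂ W := op b ![0, b 2, 0, b 0]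
/-- `S(b 0, b 3)` -/
noncomputable def P3 (b : Basis (Fin 4) ℂ W) : Module.End ℂ W := op b ![0, b 3, -b 0, 0]
/-- `S(b 1, b 2)` -/
noncomputable def Q2 (b : Basis (Fin 4) ℂ W) : Module.End ℂ W := op b ![-b 2, 0, 0, b 1]
/-- `S(b 1, b 3)` -/
noncomputable def Q3 (b : Basis (Fin 4) ℂ W) : Module.End ℂ W := op b ![-b 3, 0, -b 1, 0]
/-- half of `S(b 2, b 2)` -/
noncomputable def R22 (b : Basis (Fin 4) ℂ W) : Module.End ℂ W := op b ![0, 0, 0, b 2]
/-- `S(b 2, b 3)` -/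
noncomputable def R23 (b : Basis (Fin 4) ℂ W) : Module.End ℂ W := op b ![0, 0, -b 2, b 3]
/-- minus one half of `S(b 3, b 3)` -/
noncomputable def R33 (b : Basis (Fin 4) ℂ W) : Module.End ℂ W := op b ![0, 0, b 3, 0]

lemma P2_0 (b : Basis (Fin 4) ℂ W) : P2 b (b 0) = 0 := op_apply b _ 0
lemma P2_1 (b : Basis (Fin 4) ℂ W) : P2 b (b 1) = b 2 := op_apply b _ 1
lemma P2_2 (b : Basis (Fin 4) ℂ W) : P2 b (b 2) = 0 := op_apply b _ 2
lemma P2_3 (b : Basis (Fin 4) ℂ W) : P2 b (b 3) = b 0 := op_apply b _ 3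
lemma P3_0 (b : Basis (Fin 4) ℂ W) : P3 b (b 0) = 0 := op_apply b _ 0
lemma P3_1 (b : Basis (Fin 4) ℂ W) : P3 b (b 1) = b 3 := op_apply b _ 1
lemma P3_2 (b : Basis (Fin 4) ℂ W) : P3 b (b 2) = -b 0 := op_apply b _ 2
lemma P3_3 (b : Basis (Fin 4) ℂ W) : P3 b (b 3) = 0 := op_apply b _ 3
lemma Q2_0 (b : Basis (Fin 4) ℂ W) : Q2 b (b 0) = -b 2 := op_apply b _ 0
lemma Q2_1 (b : Basis (Fin 4) ℂ W) : Q2 b (b 1) = 0 := op_apply b _ 1
lemma Q2_2 (b : Basis (Fin 4) ℂ W) : Q2 b (b 2) = 0 := op_apply b _ 2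
lemma Q2_3 (b : Basis (Fin 4) ℂ W) : Q2 b (b 3) = b 1 := op_apply b _ 3
lemma Q3_0 (b : Basis (Fin 4) ℂ W) : Q3 b (b 0) = -b 3 := op_apply b _ 0
lemma Q3_1 (b : Basis (Fin 4) ℂ W) : Q3 b (b 1) = 0 := op_apply b _ 1
lemma Q3_2 (b : Basis (Fin 4) ℂ W) : Q3 b (b 2) = -b 1 := op_apply b _ 2
lemma Q3_3 (b : Basis (Fin 4) ℂ W) : Q3 b (b 3) = 0 := op_apply b _ 3
lemma R22_0 (b : Basis (Fin 4) ℂ W) : R22 b (b 0) = 0 := op_apply b _ 0
lemma R22_1 (b : Basis (Fin 4) ℂ W) : R22 b (b 1) = 0 := op_apply b _ 1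
lemma R22_2 (b : Basis (Fin 4) ℂ W) : R22 b (b 2) = 0 := op_apply b _ 2
lemma R22_3 (b : Basis (Fin 4) ℂ W) : R22 b (b 3) = b 2 := op_apply b _ 3
lemma R23_0 (b : Basis (Fin 4) ℂ W) : R23 b (b 0) = 0 := op_apply b _ 0
lemma R23_1 (b : Basis (Fin 4) ℂ W) : R23 b (b 1) = 0 := op_apply b _ 1
lemma R23_2 (b : Basis (Fin 4) ℂ W) : R23 b (b 2) = -b 2 := op_apply b _ 2
lemma R23_3 (b : Basis (Fin 4) ℂ W) : R23 b (b 3) = b 3 := op_apply b _ 3
lemma R33_0 (b : Basis (Fin 4) ℂ W) : R33 b (b 0) = 0 := op_apply b _ 0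
lemma R33_1 (b : Basis (Fin 4) ℂ W) : R33 b (b 1) = 0 := op_apply b _ 1
lemma R33_2 (b : Basis (Fin 4) ℂ W) : R33 b (b 2) = b 3 := op_apply b _ 2
lemma R33_3 (b : Basis (Fin 4) ℂ W) : R33 b (b 3) = 0 := op_apply b _ 3

/-- the expansion of a skew operator -/
lemma expand4 {ω : W →ₗ[ℂ] W →ₗ[ℂ] ℂ} {h e f : Module.End ℂ W} {b : Basis (Fin 4) ℂ W}
    (hs : Sym ω) (D : Dar ω b) (T : Ty1 h e f b) (x : Module.End ℂ W) (hx : Skew ω x) :
    ∃ a : Fin 4 → Fin 4 → ℂ,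
      (∀ j, x (b j) = a 0 j • b 0 + a 1 j • b 1 + a 2 j • b 2 + a 3 j • b 3) ∧
      a 1 1 = -a 0 0 ∧ a 1 2 = a 3 0 ∧ a 1 3 = -a 2 0 ∧ a 0 2 = -a 3 1 ∧ a 0 3 = a 2 1 ∧ a 3 3 = -a 2 2 ∧
      x = a 0 0 • h + a 0 1 • e + a 1 0 • f + a 2 1 • P2 b + a 3 1 • P3 b - a 2 0 • Q2 b - a 3 0 • Q3 b -
        a 2 2 • R23 b + a 2 3 • R22 b + a 3 2 • R33 b := by
  have hsw : ∀ u v, ω u v = -ω v u := by
    intro u v
    have h1 := hs.alt (u + v)
    simp only [map_add, LinearMap.add_apply, hs.alt u, hs.alt v] at h1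
    linear_combination h1
  have w10 : ω (b 1) (b 0) = -1 := by rw [hsw, D.w01]
  have w32 : ω (b 3) (b 2) = -1 := by rw [hsw, D.w23]
  have w20 : ω (b 2) (b 0) = 0 := by rw [hsw, D.w02, neg_zero]
  have w21 : ω (b 2) (b 1) = 0 := by rw [hsw, D.w12, neg_zero]
  have w31 : ω (b 3) (b 1) = 0 := by rw [hsw, D.w13, neg_zero]
  refine ⟨fun i j => b.repr (x (b j)) i, ?_⟩
  have hexp : ∀ j, x (b j) = b.repr (x (b j)) 0 • b 0 + b.repr (x (b j)) 1 • b 1 +
      b.repr (x (b j)) 2 • b 2 + b.repr (x (b j)) 3 • b 3 := by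
    intro j
    have := b.sum_repr (x (b j))
    rw [Fin.sum_univ_four] at this
    exact this.symm
  obtain ⟨a, ha⟩ : ∃ a : Fin 4 → Fin 4 → ℂ, a = fun i j => b.repr (x (b j)) i := ⟨_, rfl⟩
  have hexp' : ∀ j, x (b j) = a 0 j • b 0 + a 1 j • b 1 + a 2 j • b 2 + a 3 j • b 3 := by
    intro j
    rw [ha]
    exact hexp j
  rw [← ha]
  have key : ∀ i j, ω (x (b i)) (b j) + ω (b i) (x (b j)) = 0 := fun i j => hx _ _
  have e01 := key 0 1
  have e02 := key 0 2
  have e03 := key 0 3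
  have e12 := key 1 2
  have e13 := key 1 3
  have e23 := key 2 3
  simp only [hexp', map_add, map_smul, LinearMap.add_apply, LinearMap.smul_apply, smul_eq_mul, hs.alt,
    D.w01, D.w02, D.w03, D.w12, D.w13, D.w23, w10, w32, w20, w21, w31] at e01 e02 e03 e12 e13 e23
  have r11 : a 1 1 = -a 0 0 := by linear_combination e01
  have r12 : a 1 2 = a 3 0 := by linear_combination e02
  have r13 : a 1 3 = -a 2 0 := by linear_combination e03
  have r02 : a 0 2 = -a 3 1 := by linear_combination -e12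
  have r03 : a 0 3 = a 2 1 := by linear_combination -e13
  have r33 : a 3 3 = -a 2 2 := by linear_combination e23
  refine ⟨hexp', r11, r12, r13, r02, r03, r33, ?_⟩
  refine ext4 b ?_ ?_ ?_ ?_
  · simp only [hexp', LinearMap.add_apply, LinearMap.sub_apply, LinearMap.smul_apply, T.h0, T.e0, T.f0,
      P2_0, P3_0, Q2_0, Q3_0, R22_0, R23_0, R33_0]
    module
  · simp only [hexp', LinearMap.add_apply, LinearMap.sub_apply, LinearMap.smul_apply, T.h1, T.e1, T.f1,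
      P2_1, P3_1, Q2_1, Q3_1, R22_1, R23_1, R33_1, r11]
    module
  · simp only [hexp', LinearMap.add_apply, LinearMap.sub_apply, LinearMap.smul_apply, T.h2, T.e2, T.f2,
      P2_2, P3_2, Q2_2, Q3_2, R22_2, R23_2, R33_2, r12, r02]
    module
  · simp only [hexp', LinearMap.add_apply, LinearMap.sub_apply, LinearMap.smul_apply, T.h3, T.e3, T.f3,
      P2_3, P3_3, Q2_3, Q3_3, R22_3, R23_3, R33_3, r13, r03, r33]
    module

section br

variable {h e f : Module.End ℂ W} {b : Basis (Fin 4) ℂ W}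

lemma b1 (T : Ty1 h e f b) (p q r s t u v : ℂ) :
    h * (p • P2 b + q • P3 b - r • Q2 b - s • Q3 b - t • R23 b + u • R22 b + v • R33 b) -
      (p • P2 b + q • P3 b - r • Q2 b - s • Q3 b - t • R23 b + u • R22 b + v • R33 b) * h =
    p • P2 b + q • P3 b + r • Q2 b + s • Q3 b := by
  refine ext4 b ?_ ?_ ?_ ?_
  · simp only [LinearMap.sub_apply, LinearMap.add_apply, LinearMap.smul_apply, Module.End.mul_apply, map_add,
      map_sub, map_smul, map_neg, map_zero, T.h0, T.h1, T.h2, T.h3, P2_0, P3_0, Q2_0, Q3_0, R22_0, R23_0, R33_0]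
    module
  · simp only [LinearMap.sub_apply, LinearMap.add_apply, LinearMap.smul_apply, Module.End.mul_apply, map_add,
      map_sub, map_smul, map_neg, map_zero, T.h0, T.h1, T.h2, T.h3, P2_1, P3_1, Q2_1, Q3_1, R22_1, R23_1, R33_1]
    module
  · simp only [LinearMap.sub_apply, LinearMap.add_apply, LinearMap.smul_apply, Module.End.mul_apply, map_add,
      map_sub, map_smul, map_neg, map_zero, T.h0, T.h1, T.h2, T.h3, P2_2, P3_2, Q2_2, Q3_2, R22_2, R23_2, R33_2]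
    module
  · simp only [LinearMap.sub_apply, LinearMap.add_apply, LinearMap.smul_apply, Module.End.mul_apply, map_add,
      map_sub, map_smul, map_neg, map_zero, T.h0, T.h1, T.h2, T.h3, P2_3, P3_3, Q2_3, Q3_3, R22_3, R23_3, R33_3]
    module

lemma b3 (T : Ty1 h e f b) (r s : ℂ) :
    e * (r • Q2 b + s • Q3 b) - (r • Q2 b + s • Q3 b) * e = r • P2 b + s • P3 b := by
  refine ext4 b ?_ ?_ ?_ ?_
  · simp only [LinearMap.sub_apply, LinearMap.add_apply, LinearMap.smul_apply, Module.End.mul_apply, map_add,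
      map_smul, map_neg, map_zero, T.e0, T.e1, T.e2, T.e3, P2_0, P3_0, Q2_0, Q3_0]
    module
  · simp only [LinearMap.sub_apply, LinearMap.add_apply, LinearMap.smul_apply, Module.End.mul_apply, map_add,
      map_smul, map_neg, map_zero, T.e0, T.e1, T.e2, T.e3, P2_1, P3_1, Q2_0, Q3_0, Q2_1, Q3_1]
    module
  · simp only [LinearMap.sub_apply, LinearMap.add_apply, LinearMap.smul_apply, Module.End.mul_apply, map_add,
      map_smul, map_neg, map_zero, T.e0, T.e1, T.e2, T.e3, P2_2, P3_2, Q2_2, Q3_2]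
    module
  · simp only [LinearMap.sub_apply, LinearMap.add_apply, LinearMap.smul_apply, Module.End.mul_apply, map_add,
      map_smul, map_neg, map_zero, T.e0, T.e1, T.e2, T.e3, P2_3, P3_3, Q2_3, Q3_3]
    module

lemma b4 (t u v p q : ℂ) :
    (-(t • R23 b) + u • R22 b + v • R33 b) * (p • P2 b + q • P3 b) -
      (p • P2 b + q • P3 b) * (-(t • R23 b) + u • R22 b + v • R33 b) =
    p • (t • P2 b + v • P3 b) + q • (u • P2 b + (-t) • P3 b) := by
  refine ext4 b ?_ ?_ ?_ ?_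
  · simp only [LinearMap.sub_apply, LinearMap.add_apply, LinearMap.smul_apply, LinearMap.neg_apply,
      Module.End.mul_apply, map_add, map_smul, map_neg, map_zero, P2_0, P3_0, R22_0, R23_0, R33_0]
    module
  · simp only [LinearMap.sub_apply, LinearMap.add_apply, LinearMap.smul_apply, LinearMap.neg_apply,
      Module.End.mul_apply, map_add, map_smul, map_neg, map_zero, P2_1, P3_1, R22_1, R23_1, R33_1,
      R22_2, R23_2, R33_2, R22_3, R23_3, R33_3]
    module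
  · simp only [LinearMap.sub_apply, LinearMap.add_apply, LinearMap.smul_apply, LinearMap.neg_apply,
      Module.End.mul_apply, map_add, map_smul, map_neg, map_zero, P2_2, P3_2, P2_3, P3_3,
      R22_0, R23_0, R33_0, R22_2, R23_2, R33_2]
    module
  · simp only [LinearMap.sub_apply, LinearMap.add_apply, LinearMap.smul_apply, LinearMap.neg_apply,
      Module.End.mul_apply, map_add, map_smul, map_neg, map_zero, P2_2, P3_2, P2_3, P3_3,
      R22_0, R23_0, R33_0, R22_3, R23_3, R33_3]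
    module

lemma b5 (T : Ty1 h e f b) : f * P2 b - P2 b * f = Q2 b := by
  refine ext4 b ?_ ?_ ?_ ?_ <;>
  simp [T.f0, T.f1, T.f2, T.f3, P2_0, P2_1, P2_2, P2_3, Q2_0, Q2_1, Q2_2, Q2_3]

lemma b6 (T : Ty1 h e f b) : f * P3 b - P3 b * f = Q3 b := by
  refine ext4 b ?_ ?_ ?_ ?_ <;>
  simp [T.f0, T.f1, T.f2, T.f3, P3_0, P3_1, P3_2, P3_3, Q3_0, Q3_1, Q3_2, Q3_3]

lemma b7 : P2 b * Q2 b - Q2 b * P2 b = (2 : ℂ) • R22 b := by
  refine ext4 b ?_ ?_ ?_ ?_ <;>
  simp [P2_0, P2_1, P2_2, P2_3, Q2_0, Q2_1, Q2_2, Q2_3, R22_0, R22_1, R22_2, R22_3, two_smul]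

lemma b8 (T : Ty1 h e f b) : P2 b * Q3 b - Q3 b * P2 b = R23 b - h := by
  refine ext4 b ?_ ?_ ?_ ?_ <;>
  simp [P2_0, P2_1, P2_2, P2_3, Q3_0, Q3_1, Q3_2, Q3_3, R23_0, R23_1, R23_2, R23_3, T.h0, T.h1, T.h2, T.h3]

lemma b9 : P3 b * Q3 b - Q3 b * P3 b = (-2 : ℂ) • R33 b := by
  refine ext4 b ?_ ?_ ?_ ?_ <;>
  simp [P3_0, P3_1, P3_2, P3_3, Q3_0, Q3_1, Q3_2, Q3_3, R33_0, R33_1, R33_2, R33_3, two_smul, sub_eq_add_neg]

end br

end

theorem c1 : S_C1 := by
  intro W _ _ ω h e f b L hs D T hL hsub hI hh he hf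
  -- the components of the elements of `L`
  have comp : ∀ x ∈ L, ∃ a : Fin 4 → Fin 4 → ℂ,
      (∀ j, x (b j) = a 0 j • b 0 + a 1 j • b 1 + a 2 j • b 2 + a 3 j • b 3) ∧ a 3 3 = -a 2 2 ∧
      a 2 1 • P2 b + a 3 1 • P3 b ∈ L ∧ a 2 0 • P2 b + a 3 0 • P3 b ∈ L ∧
      -(a 2 2 • R23 b) + a 2 3 • R22 b + a 3 2 • R33 b ∈ L := by
    intro x hx
    obtain ⟨a, ha, -, -, -, -, -, r33, hxe⟩ := expand4 hs D T x (hsub hx)
    have hy : a 2 1 • P2 b + a 3 1 • P3 b - a 2 0 • Q2 b - a 3 0 • Q3 b -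
        a 2 2 • R23 b + a 2 3 • R22 b + a 3 2 • R33 b ∈ L := by
      have h1 : a 2 1 • P2 b + a 3 1 • P3 b - a 2 0 • Q2 b - a 3 0 • Q3 b -
          a 2 2 • R23 b + a 2 3 • R22 b + a 3 2 • R33 b = x - a 0 0 • h - a 0 1 • e - a 1 0 • f := by
        rw [hxe]
        module
      rw [h1]
      exact Submodule.sub_mem _ (Submodule.sub_mem _ (Submodule.sub_mem _ hx (Submodule.smul_mem _ _ hh))
        (Submodule.smul_mem _ _ he)) (Submodule.smul_mem _ _ hf)
    have hy1 : a 2 1 • P2 b + a 3 1 • P3 b + a 2 0 • Q2 b + a 3 0 • Q3 b ∈ L := by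
      have := hL h hh _ hy
      rwa [b1 T] at this
    have hy2 : a 2 1 • P2 b + a 3 1 • P3 b - a 2 0 • Q2 b - a 3 0 • Q3 b ∈ L := by
      have h2 := hL h hh _ hy1
      have h3 := b1 T (a 2 1) (a 3 1) (-a 2 0) (-a 3 0) 0 0 0
      have h4 : a 2 1 • P2 b + a 3 1 • P3 b - (-a 2 0) • Q2 b - (-a 3 0) • Q3 b - (0 : ℂ) • R23 b +
          (0 : ℂ) • R22 b + (0 : ℂ) • R33 b = a 2 1 • P2 b + a 3 1 • P3 b + a 2 0 • Q2 b + a 3 0 • Q3 b := by
        module
      rw [h4] at h3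
      rw [h3] at h2
      have h5 : a 2 1 • P2 b + a 3 1 • P3 b - a 2 0 • Q2 b - a 3 0 • Q3 b =
          a 2 1 • P2 b + a 3 1 • P3 b + -a 2 0 • Q2 b + -a 3 0 • Q3 b := by module
      rw [h5]
      exact h2
    refine ⟨a, ha, r33, ?_, ?_, ?_⟩
    · have h6 : a 2 1 • P2 b + a 3 1 • P3 b = (1 / 2 : ℂ) •
          ((a 2 1 • P2 b + a 3 1 • P3 b + a 2 0 • Q2 b + a 3 0 • Q3 b) +
            (a 2 1 • P2 b + a 3 1 • P3 b - a 2 0 • Q2 b - a 3 0 • Q3 b)) := by module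
      rw [h6]
      exact Submodule.smul_mem _ _ (Submodule.add_mem _ hy1 hy2)
    · have h7 : a 2 0 • Q2 b + a 3 0 • Q3 b ∈ L := by
        have h6 : a 2 0 • Q2 b + a 3 0 • Q3 b = (1 / 2 : ℂ) •
            ((a 2 1 • P2 b + a 3 1 • P3 b + a 2 0 • Q2 b + a 3 0 • Q3 b) -
              (a 2 1 • P2 b + a 3 1 • P3 b - a 2 0 • Q2 b - a 3 0 • Q3 b)) := by module
        rw [h6]
        exact Submodule.smul_mem _ _ (Submodule.sub_mem _ hy1 hy2)
      have h8 := hL e he _ h7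
      rwa [b3 T] at h8
    · have h6 : -(a 2 2 • R23 b) + a 2 3 • R22 b + a 3 2 • R33 b =
          (a 2 1 • P2 b + a 3 1 • P3 b - a 2 0 • Q2 b - a 3 0 • Q3 b -
            a 2 2 • R23 b + a 2 3 • R22 b + a 3 2 • R33 b) -
            (a 2 1 • P2 b + a 3 1 • P3 b - a 2 0 • Q2 b - a 3 0 • Q3 b) := by module
      rw [h6]
      exact Submodule.sub_mem _ hy hy2
  -- the stable subspace
  obtain ⟨t, ht⟩ : ∃ t : W →ₗ[ℂ] Module.End ℂ W, ∀ u, t u = b.repr u 2 • P2 b + b.repr u 3 • P3 b :=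
    ⟨(b.coord 2).smulRight (P2 b) + (b.coord 3).smulRight (P3 b), fun u => by
      simp [Basis.coord_apply]⟩
  have htb : ∀ x : Module.End ℂ W, ∀ a : Fin 4 → Fin 4 → ℂ,
      (∀ j, x (b j) = a 0 j • b 0 + a 1 j • b 1 + a 2 j • b 2 + a 3 j • b 3) →
      ∀ j, t (x (b j)) = a 2 j • P2 b + a 3 j • P3 b := by
    intro x a ha j
    rw [ha j]
    simp only [map_add, map_smul, ht, Basis.repr_self]
    simp
  have htop : L.comap t = ⊤ := by
    refine (hI (L.comap t) ?_).resolve_left ?_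
    · intro x hx u hu
      rw [Submodule.mem_comap] at hu ⊢
      obtain ⟨a, ha, r33, h1, h2, h3⟩ := comp x hx
      have hu' : b.repr u 2 • P2 b + b.repr u 3 • P3 b ∈ L := by rw [← ht]; exact hu
      have h4 := hL _ h3 _ hu'
      rw [b4] at h4
      have h5 : t (x u) = b.repr u 0 • (a 2 0 • P2 b + a 3 0 • P3 b) + b.repr u 1 • (a 2 1 • P2 b + a 3 1 • P3 b) +
          (b.repr u 2 • (a 2 2 • P2 b + a 3 2 • P3 b) + b.repr u 3 • (a 2 3 • P2 b + -a 2 2 • P3 b)) := by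
        have h6 := b.sum_repr u
        rw [Fin.sum_univ_four] at h6
        have h7 : t (x u) = t (x (b.repr u 0 • b 0 + b.repr u 1 • b 1 + b.repr u 2 • b 2 + b.repr u 3 • b 3)) := by
          rw [h6]
        rw [h7]
        simp only [map_add, map_smul, htb x a ha, r33]
        module
      rw [h5]
      exact Submodule.add_mem _ (Submodule.add_mem _ (Submodule.smul_mem _ _ h2) (Submodule.smul_mem _ _ h1)) h4
    · intro hbot
      have h0 : b 0 ∈ L.comap t := by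
        rw [Submodule.mem_comap, ht]
        simp
      rw [hbot, Submodule.mem_bot] at h0
      exact b.ne_zero 0 h0
  have hP2 : P2 b ∈ L := by
    have : b 2 ∈ L.comap t := by rw [htop]; trivial
    rw [Submodule.mem_comap, ht] at this
    simpa using this
  have hP3 : P3 b ∈ L := by
    have : b 3 ∈ L.comap t := by rw [htop]; trivial
    rw [Submodule.mem_comap, ht] at this
    simpa using this
  have hQ2 : Q2 b ∈ L := by
    have := hL f hf _ hP2
    rwa [b5 T] at this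
  have hQ3 : Q3 b ∈ L := by
    have := hL f hf _ hP3
    rwa [b6 T] at this
  have hR22 : R22 b ∈ L := by
    have := hL _ hP2 _ hQ2
    rw [b7] at this
    have h2 := Submodule.smul_mem L (1 / 2 : ℂ) this
    rw [smul_smul] at h2
    norm_num at h2
    exact h2
  have hR33 : R33 b ∈ L := by
    have := hL _ hP3 _ hQ3
    rw [b9] at this
    have h2 := Submodule.smul_mem L (-1 / 2 : ℂ) this
    rw [smul_smul] at h2
    norm_num at h2
    exact h2
  have hR23 : R23 b ∈ L := by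
    have := hL _ hP2 _ hQ3
    rw [b8 T] at this
    have h2 := Submodule.add_mem _ this hh
    rwa [sub_add_cancel] at h2
  refine le_antisymm hsub fun x hx => ?_
  obtain ⟨a, -, -, -, -, -, -, -, hxe⟩ := expand4 hs D T x hx
  rw [hxe]
  exact Submodule.add_mem _ (Submodule.add_mem _ (Submodule.sub_mem _ (Submodule.sub_mem _ (Submodule.sub_mem _
    (Submodule.add_mem _ (Submodule.add_mem _ (Submodule.add_mem _ (Submodule.add_mem _
      (Submodule.smul_mem _ _ hh) (Submodule.smul_mem _ _ he)) (Submodule.smul_mem _ _ hf))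
      (Submodule.smul_mem _ _ hP2)) (Submodule.smul_mem _ _ hP3)) (Submodule.smul_mem _ _ hQ2))
      (Submodule.smul_mem _ _ hQ3)) (Submodule.smul_mem _ _ hR23)) (Submodule.smul_mem _ _ hR22))
      (Submodule.smul_mem _ _ hR33)

end Pool.Agent.P8H76.SW
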