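import Pool.Agent.P8H30.SW.Stm

/-!
# Project SW, package STD: standard bases of irreducible representations of `sl(2)`
-/

set_option autoImplicit false

open Module

namespace Pool.Agent.P8H76.SW

open Pool.Agent.P8H30.SW

section

variable {W : Type} [AddCommGroup W] [Module ℂ W]

lemma hf_apply {h e f : Module.End ℂ W} (T : Trip h e f) (x : W) :
    h (f x) = f (h x) + (-2 : ℂ) • f x := by
  have := congrArg (fun g : Module.End ℂ W => g x) T.hf
  simp only [LinearMap.sub_apply, Module.End.mul_apply, LinearMap.neg_apply, LinearMap.smul_apply] at this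
  rw [sub_eq_iff_eq_add] at this
  rw [this, neg_smul]
  abel

lemma he_apply {h e f : Module.End ℂ W} (T : Trip h e f) (x : W) :
    h (e x) = e (h x) + (2 : ℂ) • e x := by
  have := congrArg (fun g : Module.End ℂ W => g x) T.he
  simp only [LinearMap.sub_apply, Module.End.mul_apply, LinearMap.smul_apply] at this
  rw [sub_eq_iff_eq_add] at this
  rw [this]
  abel

lemma ef_apply {h e f : Module.End ℂ W} (T : Trip h e f) (x : W) :
    e (f x) = f (e x) + h x := by
  have := congrArg (fun g : Module.End ℂ W => g x) T.ef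
  simp only [LinearMap.sub_apply, Module.End.mul_apply] at this
  rw [sub_eq_iff_eq_add] at this
  rw [this]
  abel

lemma pow_eig (g h : Module.End ℂ W) (c : ℂ) (hg : ∀ x, h (g x) = g (h x) + c • g x) (v : W) (μ : ℂ)
    (hv : h v = μ • v) (k : ℕ) : h ((g ^ k) v) = (μ + c * k) • (g ^ k) v := by
  induction k with
  | zero => simpa using hv
  | succ k ih =>
    rw [pow_succ', Module.End.mul_apply, hg, ih, map_smul, ← add_smul]
    congr 1
    push_cast
    ring

lemma exists_zero [FiniteDimensional ℂ W] (g h : Module.End ℂ W) (c : ℂ) (hc : c ≠ 0)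
    (hg : ∀ x, h (g x) = g (h x) + c • g x) (v : W) (μ : ℂ) (hv : h v = μ • v) :
    ∃ k : ℕ, (g ^ k) v = 0 := by
  by_contra! hcon
  have hfin := Module.End.finite_hasEigenvalue h
  have hinj : Function.Injective (fun k : ℕ => μ + c * (k : ℂ)) := by
    intro a b hab
    have h1 : c * (a : ℂ) = c * (b : ℂ) := add_left_cancel hab
    have h2 := mul_left_cancel₀ hc h1
    exact_mod_cast h2
  have hsub : Set.range (fun k : ℕ => μ + c * (k : ℂ)) ⊆ {μ | h.HasEigenvalue μ} := by
    rintro _ ⟨k, rfl⟩
    exact Module.End.hasEigenvalue_of_hasEigenvector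
      ⟨Module.End.mem_eigenspace_iff.mpr (pow_eig g h c hg v μ hv k), hcon k⟩
  exact (Set.infinite_range_of_injective hinj).mono hsub hfin

/-- a primitive vector -/
lemma exists_prim [FiniteDimensional ℂ W] [Nontrivial W] {h e f : Module.End ℂ W} (T : Trip h e f) :
    ∃ (μ : ℂ) (v : W), v ≠ 0 ∧ h v = μ • v ∧ e v = 0 := by
  obtain ⟨μ0, hμ0⟩ := Module.End.exists_eigenvalue h
  obtain ⟨v0, hv0⟩ := hμ0.exists_hasEigenvector
  have hv0' : h v0 = μ0 • v0 := hv0.apply_eq_smul
  obtain ⟨k0, hk0, hk1⟩ := Nat.exists_not_and_succ_of_not_zero_of_exists (p := fun k => (e ^ k) v0 = 0)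
    (by simpa using hv0.2) (exists_zero e h 2 (by norm_num) (he_apply T) v0 μ0 hv0')
  refine ⟨μ0 + 2 * k0, (e ^ k0) v0, hk0, pow_eig e h 2 (he_apply T) v0 μ0 hv0' k0, ?_⟩
  rw [← Module.End.mul_apply, ← pow_succ']
  exact hk1

/-- the action of `e` on the string of a primitive vector -/
lemma e_pow {h e f : Module.End ℂ W} (T : Trip h e f) (μ : ℂ) (v : W) (hv : h v = μ • v) (he : e v = 0)
    (k : ℕ) : e ((f ^ (k + 1)) v) = (((k : ℂ) + 1) * (μ - k)) • (f ^ k) v := by
  induction k with
  | zero =>
    rw [zero_add, pow_one, ef_apply T, he, map_zero, zero_add, hv]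
    simp
  | succ k ih =>
    rw [pow_succ' f (k + 1), Module.End.mul_apply, ef_apply T, ih, map_smul,
      pow_eig f h (-2) (hf_apply T) v μ hv (k + 1), ← Module.End.mul_apply, ← pow_succ', ← add_smul]
    congr 1
    push_cast
    ring

/-- the string of a primitive vector: its length and its weights -/
lemma exists_string [FiniteDimensional ℂ W] {h e f : Module.End ℂ W} (T : Trip h e f) (μ : ℂ) (v : W)
    (hv0 : v ≠ 0) (hv : h v = μ • v) (he : e v = 0) :
    ∃ m : ℕ, μ = m ∧ (f ^ (m + 1)) v = 0 ∧
      LinearIndependent ℂ (fun k : Fin (m + 1) => (f ^ (k : ℕ)) v) := by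
  obtain ⟨m, hm, hm1⟩ := Nat.exists_not_and_succ_of_not_zero_of_exists (p := fun k => (f ^ k) v = 0)
    (by simpa using hv0) (exists_zero f h (-2) (by norm_num) (hf_apply T) v μ hv)
  have hμ : μ = m := by
    have h1 := e_pow T μ v hv he m
    have hm1' : (f ^ (m + 1)) v = 0 := hm1
    rw [hm1', map_zero] at h1
    rcases smul_eq_zero.mp h1.symm with h2 | h2
    · rcases mul_eq_zero.mp h2 with h3 | h3
      · exact absurd h3 (Nat.cast_add_one_ne_zero m)
      · linear_combination h3
    · exact absurd h2 hm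
  have hw0 : ∀ k : Fin (m + 1), (f ^ (k : ℕ)) v ≠ 0 := by
    intro k hk
    apply hm
    have : m = (m - (k : ℕ)) + k := by
      have := k.2
      omega
    show (f ^ m) v = 0
    rw [this, pow_add, Module.End.mul_apply, hk, map_zero]
  refine ⟨m, hμ, hm1, ?_⟩
  refine Module.End.eigenvectors_linearIndependent' h (fun k : Fin (m + 1) => μ + (-2) * ((k : ℕ) : ℂ)) ?_ _ ?_
  · intro a b hab
    have h1 : (-2 : ℂ) * ((a : ℕ) : ℂ) = (-2) * ((b : ℕ) : ℂ) := add_left_cancel hab
    have h2 := mul_left_cancel₀ (by norm_num : (-2 : ℂ) ≠ 0) h1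
    exact Fin.ext (by exact_mod_cast h2)
  · intro k
    exact ⟨Module.End.mem_eigenspace_iff.mpr (pow_eig f h (-2) (hf_apply T) v μ hv k), hw0 k⟩

end

theorem std : S_STD := by
  intro n W _ _ _ h e f T hI hdim
  have hnt : Nontrivial W := Module.nontrivial_of_finrank_pos (R := ℂ) (by omega)
  obtain ⟨μ, v, hv0, hv, hev⟩ := exists_prim T
  obtain ⟨m, hμ, hm1, hli⟩ := exists_string T μ v hv0 hv hev
  have hmem : ∀ k : ℕ, (f ^ k) v ∈ Submodule.span ℂ (Set.range fun k : Fin (m + 1) => (f ^ (k : ℕ)) v) := by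
    intro k
    by_cases hk : k < m + 1
    · exact Submodule.subset_span ⟨⟨k, hk⟩, rfl⟩
    · have : k = (k - (m + 1)) + (m + 1) := by omega
      rw [this, pow_add, Module.End.mul_apply, hm1, map_zero]
      exact Submodule.zero_mem _
  have hst : ∀ x ∈ Submodule.span ℂ {h, e, f},
      ∀ u ∈ Submodule.span ℂ (Set.range fun k : Fin (m + 1) => (f ^ (k : ℕ)) v),
      x u ∈ Submodule.span ℂ (Set.range fun k : Fin (m + 1) => (f ^ (k : ℕ)) v) := by
    intro x hx u hu
    have hgen : ∀ x ∈ ({h, e, f} : Set (Module.End ℂ W)), ∀ k : ℕ,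
        x ((f ^ k) v) ∈ Submodule.span ℂ (Set.range fun k : Fin (m + 1) => (f ^ (k : ℕ)) v) := by
      intro x hx k
      rcases hx with rfl | rfl | rfl
      · rw [pow_eig f x (-2) (hf_apply T) v μ hv k]
        exact Submodule.smul_mem _ _ (hmem k)
      · cases k with
        | zero =>
          rw [pow_zero, Module.End.one_apply, hev]
          exact Submodule.zero_mem _
        | succ k =>
          rw [e_pow T μ v hv hev k]
          exact Submodule.smul_mem _ _ (hmem k)
      · rw [← Module.End.mul_apply, ← pow_succ']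
        exact hmem (k + 1)
    induction hx using Submodule.span_induction with
    | zero => simp
    | add a b _ _ ha hb => simpa only [LinearMap.add_apply] using Submodule.add_mem _ ha hb
    | smul c a _ ha => simpa only [LinearMap.smul_apply] using Submodule.smul_mem _ c ha
    | mem a ha =>
      induction hu using Submodule.span_induction with
      | zero => simp
      | add u w _ _ hu hw => simpa only [map_add] using Submodule.add_mem _ hu hw
      | smul c u _ hu => simpa only [map_smul] using Submodule.smul_mem _ c hu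
      | mem u hu =>
        obtain ⟨k, rfl⟩ := hu
        exact hgen a ha k
  have htop : Submodule.span ℂ (Set.range fun k : Fin (m + 1) => (f ^ (k : ℕ)) v) = ⊤ := by
    refine (hI _ hst).resolve_left fun hbot => hv0 ?_
    have := hmem 0
    rw [hbot, Submodule.mem_bot, pow_zero, Module.End.one_apply] at this
    exact this
  have hcard : m + 1 = n + 1 := by
    rw [← hdim, Module.finrank_eq_card_basis (Basis.mk hli htop.ge), Fintype.card_fin]
  obtain rfl : m = n := by omega
  have hb : ∀ k : Fin (m + 1), Basis.mk hli htop.ge k = (f ^ (k : ℕ)) v := fun k => Basis.mk_apply _ _ k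
  refine ⟨Basis.mk hli htop.ge, ?_, ?_, ?_, ?_, ?_⟩
  · intro k
    rw [hb, pow_eig f h (-2) (hf_apply T) v μ hv k, hμ]
    congr 1
    ring
  · intro k
    rw [hb, hb, ← Module.End.mul_apply, ← pow_succ']
    simp
  · rw [hb, ← Module.End.mul_apply, ← pow_succ']
    simpa using hm1
  · intro k
    rw [hb, hb]
    have := e_pow T μ v hv hev k
    rw [hμ] at this
    simpa using this
  · rw [hb]
    simpa using hev

end Pool.Agent.P8H76.SW
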